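import Pool.Agent.Helper99.WP.GoalsK

/-!
# WP, packet ABP: the discrete Aleksandrov-Bakelman-Pucci estimate
-/

open Finset

namespace Pool.Agent.Helper81.WP

open Pool.Agent.Helper99.WP Pool.Agent.Helper99.ERW

/-- The affine function. -/
noncomputable def aff {d : ℕ} (q : Fin d → ℝ) (z0 z : Site d) : ℝ :=
  ∑ l, q l * ((z l : ℝ) - (z0 l : ℝ))

lemma aff_add {d : ℕ} (q : Fin d → ℝ) (z0 z : Site d) (l : Fin d) :
    aff q z0 (z + ev l) = aff q z0 z + q l := by
  unfold aff ev
  have e : ∀ k, q k * (((z + Pi.single l 1 : Site d) k : ℝ) - (z0 k : ℝ)) =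
      q k * ((z k : ℝ) - (z0 k : ℝ)) + if k = l then q k else 0 := by
    intro k
    rw [Pi.add_apply]
    by_cases h : k = l
    · subst h
      rw [Pi.single_eq_same, if_pos rfl]
      push_cast
      ring
    · rw [Pi.single_eq_of_ne h, if_neg h]
      push_cast
      ring
  rw [Finset.sum_congr rfl fun k _ => e k, Finset.sum_add_distrib, Finset.sum_ite_eq']
  simp

lemma aff_sub {d : ℕ} (q : Fin d → ℝ) (z0 z : Site d) (l : Fin d) :
    aff q z0 (z - ev l) = aff q z0 z - q l := by
  have h := aff_add q z0 (z - ev l) l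
  rw [sub_add_cancel] at h
  linarith

lemma aff_self {d : ℕ} (q : Fin d → ℝ) (z0 : Site d) : aff q z0 z0 = 0 := by
  unfold aff
  simp

theorem ABP (hGEX : GEX_stmt) (hGCM : GCM_stmt) (hQQQ : QQQ_stmt) : ABP_stmt := by
  intro d κ p hκ hp R y D hD f hf x
  obtain ⟨⟨hoff, hsol⟩, -⟩ := hGEX d κ p hκ hp D f
  obtain ⟨-, -, -, hpos, -, -, -⟩ := hGCM d κ p hκ hp D
  have hv : ∀ x, 0 ≤ Gr p D f x := hpos f fun x _ => hf x
  obtain ⟨hmem, -, hnb, -, -, hsub⟩ := hQQQ d
  set v := Gr p D f with hvdef
  have hd : 0 < d := by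
    rcases Nat.eq_zero_or_pos d with h0 | h0
    · subst h0
      have := (hp x).2
      simp at this
    · exact h0
  have hd' : (0 : ℝ) < d := by exact_mod_cast hd
  have hR : (0 : ℝ) < (R : ℝ) + 1 := by positivity
  have hS : 0 ≤ ∑ z ∈ D, f z ^ d := Finset.sum_nonneg fun z _ => pow_nonneg (hf z) _
  have hRHS : 0 ≤ ((d : ℝ) * (R + 1)) ^ d * ∑ z ∈ D, f z ^ d := by positivity
  by_cases hx0 : v x = 0
  · rw [hx0, mul_zero, zero_pow hd.ne']
    exact hRHS
  have hxD : x ∈ D := by
    by_contra h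
    exact hx0 (hoff x h)
  have hxpos : 0 < v x := lt_of_le_of_ne (hv x) (Ne.symm hx0)
  obtain ⟨z0, hz0, hmax⟩ := Finset.exists_max_image D v ⟨x, hxD⟩
  set M := v z0 with hM
  have hMx : v x ≤ M := hmax x hxD
  have hMpos : 0 < M := lt_of_lt_of_le hxpos hMx
  set a : ℝ := M / (2 * d * (R + 1)) with ha
  have hapos : 0 < a := by positivity
  -- the covering
  have hcov : Set.pi Set.univ (fun _ : Fin d => Set.Ioo (-a) a) ⊆
      ⋃ z ∈ D, Set.Icc (fun l => v (z + ev l) - v z) (fun l => v z - v (z - ev l)) := by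
    intro q hq
    have hq' : ∀ l, |q l| ≤ a := fun l => by
      have := hq l (Set.mem_univ l)
      exact abs_le.2 ⟨this.1.le, this.2.le⟩
    have hz0Q : z0 ∈ Q (R + 1) y := hsub R (R + 1) y (Nat.le_succ R) (hD hz0)
    obtain ⟨z, hz, hzmax⟩ := Finset.exists_max_image (Q (R + 1) y)
      (fun z => v z - aff q z0 z) ⟨z0, hz0Q⟩
    have hzD : z ∈ D := by
      by_contra hzD
      have h1 := hzmax z0 hz0Q
      simp only [aff_self, sub_zero, hoff z hzD] at h1
      have h2 : -aff q z0 z ≤ ∑ _l : Fin d, a * (2 * R + 1) := by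
        unfold aff
        rw [← Finset.sum_neg_distrib]
        refine Finset.sum_le_sum fun l _ => ?_
        have h3 : |(z l : ℝ) - (z0 l : ℝ)| ≤ 2 * R + 1 := by
          have h4 := (hmem (R + 1) y z).1 hz l
          have h5 := (hmem R y z0).1 (hD hz0) l
          have h6 : |z l - z0 l| ≤ 2 * (R : ℤ) + 1 := by
            push_cast at h4
            rw [abs_le] at h4 h5 ⊢
            constructor <;> linarith [h4.1, h4.2, h5.1, h5.2]
          exact_mod_cast h6
        calc -(q l * ((z l : ℝ) - (z0 l : ℝ))) ≤ |q l * ((z l : ℝ) - (z0 l : ℝ))| :=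
              neg_le_abs _
          _ = |q l| * |(z l : ℝ) - (z0 l : ℝ)| := abs_mul _ _
          _ ≤ a * (2 * R + 1) := mul_le_mul (hq' l) h3 (abs_nonneg _) hapos.le
      rw [Finset.sum_const, Finset.card_univ, Fintype.card_fin, nsmul_eq_mul] at h2
      have h7 : (d : ℝ) * (a * (2 * R + 1)) < M := by
        have e : (d : ℝ) * (a * (2 * R + 1)) = M * ((2 * R + 1) / (2 * (R + 1))) := by
          rw [ha]
          field_simp
        rw [e]
        have h8 : (2 * (R : ℝ) + 1) / (2 * (R + 1)) < 1 := by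
          rw [div_lt_one (by positivity)]
          linarith
        nlinarith
      linarith
    rw [Set.mem_iUnion₂]
    refine ⟨z, hzD, ?_, ?_⟩
    · intro l
      have h1 := hzmax (z + ev l) (hnb R y z (hD hzD) l).1
      simp only [aff_add] at h1
      change v (z + ev l) - v z ≤ q l
      linarith
    · intro l
      have h1 := hzmax (z - ev l) (hnb R y z (hD hzD) l).2
      simp only [aff_sub] at h1
      change q l ≤ v z - v (z - ev l)
      linarith
  -- the volumes of the boxes
  have hbox : ∀ z ∈ D, MeasureTheory.volume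
      (Set.Icc (fun l => v (z + ev l) - v z) (fun l => v z - v (z - ev l))) ≤
      ENNReal.ofReal ((f z / κ) ^ d) := by
    intro z hz
    rw [Real.volume_Icc_pi]
    by_cases hneg : ∃ l, v z - v (z - ev l) - (v (z + ev l) - v z) < 0
    · obtain ⟨l, hl⟩ := hneg
      rw [Finset.prod_eq_zero (Finset.mem_univ l) (ENNReal.ofReal_of_nonpos hl.le)]
      exact bot_le
    · have hneg' : ∀ l, 0 ≤ v z - v (z - ev l) - (v (z + ev l) - v z) :=
        fun l => not_lt.1 fun h => hneg ⟨l, h⟩
      have hsum : ∑ l, p z l * (v z - v (z - ev l) - (v (z + ev l) - v z)) = f z := by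
        have h1 := hsol z hz
        unfold lap at h1
        have h2 : ∑ l, p z l * (v z - v (z - ev l) - (v (z + ev l) - v z)) =
            -∑ l, p z l * (v (z + ev l) + v (z - ev l) - 2 * v z) := by
          rw [← Finset.sum_neg_distrib]
          exact Finset.sum_congr rfl fun l _ => by ring
        rw [h2, h1, neg_neg]
      have hle : ∀ l, v z - v (z - ev l) - (v (z + ev l) - v z) ≤ f z / κ := by
        intro l
        rw [le_div_iff₀ hκ]
        have h1 : p z l * (v z - v (z - ev l) - (v (z + ev l) - v z)) ≤ f z := by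
          rw [← hsum]
          exact Finset.single_le_sum
            (f := fun l => p z l * (v z - v (z - ev l) - (v (z + ev l) - v z)))
            (fun k _ => mul_nonneg (hκ.le.trans ((hp z).1 k)) (hneg' k)) (Finset.mem_univ l)
        have h2 := (hp z).1 l
        nlinarith [hneg' l]
      calc ∏ l, ENNReal.ofReal (v z - v (z - ev l) - (v (z + ev l) - v z))
          ≤ ∏ _l : Fin d, ENNReal.ofReal (f z / κ) :=
            Finset.prod_le_prod' fun l _ => ENNReal.ofReal_le_ofReal (hle l)
        _ = ENNReal.ofReal ((f z / κ) ^ d) := by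
            rw [Finset.prod_const, Finset.card_univ, Fintype.card_fin,
              ENNReal.ofReal_pow (div_nonneg (hf z) hκ.le)]
  have hvol : ENNReal.ofReal ((2 * a) ^ d) ≤ ENNReal.ofReal (∑ z ∈ D, (f z / κ) ^ d) := by
    calc ENNReal.ofReal ((2 * a) ^ d)
        = MeasureTheory.volume (Set.pi Set.univ (fun _ : Fin d => Set.Ioo (-a) a)) := by
          rw [Real.volume_pi_Ioo, Finset.prod_const, Finset.card_univ, Fintype.card_fin,
            ← ENNReal.ofReal_pow (by linarith)]
          congr 2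
          ring
      _ ≤ MeasureTheory.volume (⋃ z ∈ D, Set.Icc (fun l => v (z + ev l) - v z)
            (fun l => v z - v (z - ev l))) := MeasureTheory.measure_mono hcov
      _ ≤ ∑ z ∈ D, MeasureTheory.volume (Set.Icc (fun l => v (z + ev l) - v z)
            (fun l => v z - v (z - ev l))) := MeasureTheory.measure_biUnion_finset_le _ _
      _ ≤ ∑ z ∈ D, ENNReal.ofReal ((f z / κ) ^ d) := Finset.sum_le_sum hbox
      _ = ENNReal.ofReal (∑ z ∈ D, (f z / κ) ^ d) :=
          (ENNReal.ofReal_sum_of_nonneg fun z _ => pow_nonneg (div_nonneg (hf z) hκ.le) _).symm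
  have hreal : (2 * a) ^ d ≤ ∑ z ∈ D, (f z / κ) ^ d :=
    (ENNReal.ofReal_le_ofReal_iff
      (Finset.sum_nonneg fun z _ => pow_nonneg (div_nonneg (hf z) hκ.le) _)).1 hvol
  calc (κ * v x) ^ d ≤ (κ * M) ^ d :=
        pow_le_pow_left₀ (by positivity) (mul_le_mul_of_nonneg_left hMx hκ.le) _
    _ = (κ * ((d : ℝ) * (R + 1))) ^ d * (2 * a) ^ d := by
        rw [← mul_pow]
        congr 1
        rw [ha]
        field_simp
    _ ≤ (κ * ((d : ℝ) * (R + 1))) ^ d * ∑ z ∈ D, (f z / κ) ^ d :=
        mul_le_mul_of_nonneg_left hreal (by positivity)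
    _ = ((d : ℝ) * (R + 1)) ^ d * ∑ z ∈ D, f z ^ d := by
        rw [mul_pow, Finset.mul_sum, Finset.mul_sum]
        refine Finset.sum_congr rfl fun z _ => ?_
        rw [div_pow]
        have : κ ^ d ≠ 0 := pow_ne_zero _ hκ.ne'
        field_simp

end Pool.Agent.Helper81.WP
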